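import Mathlib

open Set MeasureTheory Metric Filter Topology

namespace Pool.Agent.H.MP_81590e_gt

abbrev P := ℝ × ℝ

def gr (A : P →L[ℝ] ℝ) : P := (A (1, 0), A (0, 1))

lemma app (A : P →L[ℝ] ℝ) (a b : ℝ) : A (a, b) = a * A (1, 0) + b * A (0, 1) := by
  rw [← smul_eq_mul, ← smul_eq_mul, ← map_smul, ← map_smul, ← map_add]; simp

lemma par (b : P) (m w η : ℝ) (hw : 0 ≤ w) (hη : 0 < η) :
    volume {q : P | |q.1 - b.1| ≤ w ∧ |m * (q.1 - b.1) + (q.2 - b.2)| ≤ η} ≤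
      ENNReal.ofReal (8 * w * η) := by
  refine (measure_mono (t := regionBetween (fun x => b.2 - m * (x - b.1) - 2 * η)
    (fun x => b.2 - m * (x - b.1) + 2 * η) (Icc (b.1 - w) (b.1 + w))) fun q h => ?_).trans ?_
  · obtain ⟨h1, h2⟩ := h
    rw [abs_le] at h1 h2
    exact ⟨⟨by linarith, by linarith⟩, by linarith, by linarith⟩
  · rw [Measure.volume_eq_prod, volume_regionBetween_eq_lintegral' (by fun_prop) (by fun_prop)
      measurableSet_Icc]
    simp only [Pi.sub_apply, add_sub_sub_cancel, lintegral_const, MeasurableSet.univ,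
      Measure.restrict_apply, univ_inter, Real.volume_Icc]
    rw [← ENNReal.ofReal_mul (by linarith)]
    exact le_of_eq (by congr 1; ring)

lemma core (u : P → ℝ) (D : P → P →L[ℝ] ℝ) (a c L : ℝ) (hL : 0 < L)
    (hd : ∀ x ∈ closedBall ((a, c) : P) (2 * L), HasFDerivAt u (D x) x)
    (hc : ContinuousOn D (closedBall ((a, c) : P) (2 * L))) :
    volume ((fun ξ => gr (D (ξ, c))) '' {ξ | |ξ - a| ≤ L ∧ ∃ m, |m| ≤ 1 ∧
      ∀ s, |s| ≤ L → D (ξ + m * s, c + s) = D (ξ, c)}) = 0 := by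
  set B := closedBall ((a, c) : P) (2 * L)
  have mB : ∀ ξ m s : ℝ, |ξ - a| ≤ L → |m| ≤ 1 → |s| ≤ L → (ξ + m * s, c + s) ∈ B := by
    intro ξ m s h1 h2 h3
    have : |m * s| ≤ L := by rw [abs_mul]; nlinarith [abs_nonneg m, abs_nonneg s]
    rw [abs_le] at h1 h3 this
    simp only [B, mem_closedBall, Prod.dist_eq, Real.dist_eq, max_le_iff, abs_le]
    exact ⟨⟨by linarith, by linarith⟩, by linarith, by linarith⟩
  have aff : ∀ ξ m : ℝ, |ξ - a| ≤ L → |m| ≤ 1 → (∀ s, |s| ≤ L → D (ξ + m * s, c + s) = D (ξ, c)) →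
      u (ξ + m * L, c + L) - u (ξ, c) = L * D (ξ, c) (m, 1) := by
    intro ξ m h1 h2 h3
    have sg : ∀ x ∈ segment ℝ ((ξ, c) : P) (ξ + m * L, c + L), ∃ s, |s| ≤ L ∧ x = (ξ + m * s, c + s) := by
      rintro _ ⟨r, t, hr, ht, e, rfl⟩
      refine ⟨t * L, by rw [abs_of_nonneg (by positivity)]; nlinarith, ?_⟩
      obtain rfl : r = 1 - t := by linarith
      ext <;> simp <;> ring
    have := (convex_segment _ _).norm_image_sub_le_of_norm_hasFDerivWithin_le' (f := u) (f' := D)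
      (φ := D (ξ, c)) (C := 0) (fun x hx => by
        obtain ⟨s, hs, rfl⟩ := sg x hx
        exact (hd _ (mB _ _ _ h1 h2 hs)).hasFDerivWithinAt) (fun x hx => by
        obtain ⟨s, hs, rfl⟩ := sg x hx
        simp [h3 s hs]) (left_mem_segment _ _ _) (right_mem_segment _ _ _)
    rw [zero_mul, norm_le_zero_iff, sub_eq_zero] at this
    rw [this, ← smul_eq_mul L, ← map_smul]; congr 1; ext <;> simp; ring
  refine le_antisymm (ENNReal.le_of_forall_pos_le_add fun ε hε _ => ?_) zero_le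
  obtain ⟨w, w0, hw⟩ : ∃ w : ℝ, 0 < w ∧ 96 * w ^ 2 ≤ ε := ⟨√(ε / 96), by positivity, by
    rw [Real.sq_sqrt (by positivity)]; linarith⟩
  obtain ⟨δ₀, δ0, uc⟩ := Metric.uniformContinuousOn_iff_le.1
    ((isCompact_closedBall _ _).uniformContinuousOn_of_continuous hc) w w0
  obtain ⟨N, hN⟩ := exists_nat_gt (4 * L / δ₀)
  have N0 : (0 : ℝ) < N := lt_trans (by positivity) hN
  have N1 : (1 : ℝ) ≤ N := by exact_mod_cast (Nat.cast_pos.1 N0)
  obtain ⟨δ, hδ⟩ : ∃ δ, δ = 2 * L / N := ⟨_, rfl⟩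
  have δp : 0 < δ := by rw [hδ]; positivity
  have δ1 : 2 * δ ≤ δ₀ := by
    rw [div_lt_iff₀ δ0] at hN
    rw [hδ, ← mul_div_assoc, div_le_iff₀ N0]; linarith
  have est : ∀ x ∈ B, ∀ y ∈ B, ∀ r, ‖y - x‖ ≤ r → r ≤ δ₀ → |u y - u x - D x (y - x)| ≤ w * r := by
    intro x hx y hy r h1 h2
    refine (((convex_closedBall _ _).inter (convex_closedBall x δ₀)
      ).norm_image_sub_le_of_norm_hasFDerivWithin_le' (f := u) (f' := D) (φ := D x) (C := w)
      (fun z hz => (hd z hz.1).hasFDerivWithinAt) (fun z hz => by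
        rw [← dist_eq_norm]; exact uc z hz.1 x hx hz.2) ⟨hx, mem_closedBall_self δ0.le⟩
      ⟨hy, by rw [mem_closedBall, dist_eq_norm]; linarith⟩).trans (by gcongr)
  set Y := {ξ | |ξ - a| ≤ L ∧ ∃ m, |m| ≤ 1 ∧ ∀ s, |s| ≤ L → D (ξ + m * s, c + s) = D (ξ, c)}
  have piece : ∀ j : ℕ, volume ((fun ξ => gr (D (ξ, c))) '' (Y ∩ {ξ | ⌊(ξ - a + L) / δ⌋₊ = j})) ≤
      ENNReal.ofReal (8 * w * (3 * w * δ / L)) := by
    intro j
    rcases (Y ∩ {ξ | ⌊(ξ - a + L) / δ⌋₊ = j}).eq_empty_or_nonempty with h | ⟨ξ, ⟨h1, m, h2, h3⟩, h4⟩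
    · simp [h]
    refine (measure_mono ?_).trans (par (gr (D (ξ, c))) m w _ w0.le (by positivity))
    rintro _ ⟨ζ, ⟨⟨k1, n, k2, k3⟩, k4⟩, rfl⟩
    have d1 : |ξ - ζ| ≤ δ := by
      have a1 := Nat.floor_le (div_nonneg (by linarith [(abs_le.1 h1).1]) δp.le : 0 ≤ (ξ - a + L) / δ)
      have a2 := Nat.floor_le (div_nonneg (by linarith [(abs_le.1 k1).1]) δp.le : 0 ≤ (ζ - a + L) / δ)
      have a3 := Nat.lt_floor_add_one ((ξ - a + L) / δ)
      have a4 := Nat.lt_floor_add_one ((ζ - a + L) / δ)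
      rw [h4, le_div_iff₀ δp] at a1
      rw [k4, le_div_iff₀ δp] at a2
      rw [h4, div_lt_iff₀ δp] at a3
      rw [k4, div_lt_iff₀ δp] at a4
      rw [abs_le]; constructor <;> linarith
    have x1 : (ζ, c) ∈ B := by simpa using mB ζ n 0 k1 k2 (by simpa using hL.le)
    have x2 : (ξ, c) ∈ B := by simpa using mB ξ m 0 h1 h2 (by simpa using hL.le)
    have LL : |L| ≤ L := (abs_of_pos hL).le
    refine ⟨?_, ?_⟩
    · have := uc _ x1 _ x2 (by
        simp only [Prod.dist_eq, Real.dist_eq, dist_self, max_le_iff, abs_sub_comm ζ]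
        exact ⟨by linarith, δ0.le⟩)
      rw [dist_eq_norm] at this
      simpa [gr] using ((D (ζ, c) - D (ξ, c)).le_opNorm (1, 0)).trans (by simpa using this)
    by_cases hD : D (ζ, c) = D (ξ, c)
    · simp only [hD, sub_self, mul_zero, add_zero, abs_zero]; positivity
    have d2 : |m - n| * L ≤ δ := by
      by_contra hh
      push Not at hh
      have mn : m - n ≠ 0 := fun h => by simp [h] at hh; linarith
      have s1 : |(ζ - ξ) / (m - n)| ≤ L := by
        rw [abs_div, div_le_iff₀ (abs_pos.2 mn), abs_sub_comm]; linarith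
      refine hD ?_
      rw [← k3 _ s1, ← h3 _ s1]
      congr 2; field_simp; ring
    have e1 := est _ x1 _ x2 δ (by simpa using d1) (by linarith)
    have e2 := est _ (mB _ _ _ k1 k2 LL) _ (mB _ _ _ h1 h2 LL) (2 * δ) (by
      have := abs_add_le (ξ - ζ) ((m - n) * L)
      rw [abs_mul, abs_of_pos hL] at this
      simp only [Prod.mk_sub_mk, sub_self, Prod.norm_mk, norm_zero, Real.norm_eq_abs, max_le_iff]
      exact ⟨by rw [show ξ + m * L - (ζ + n * L) = ξ - ζ + (m - n) * L by ring]; linarith,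
        by linarith⟩) δ1
    have f1 := aff _ _ h1 h2 h3
    have f2 := aff _ _ k1 k2 k3
    rw [k3 L LL] at e2
    simp only [Prod.mk_sub_mk, sub_self] at e1 e2
    rw [app] at e1 e2 f1 f2
    have key : ∀ X : ℝ, |X * L| ≤ 3 * w * δ → |X| ≤ 3 * w * δ / L := fun X h => by
      rwa [le_div_iff₀ hL, ← abs_of_pos hL, ← abs_mul]
    refine key _ ?_
    simp only [gr]
    rw [abs_le] at e1 e2 ⊢
    constructor <;> nlinarith
  calc _ ≤ volume (⋃ j ∈ Finset.range (N + 1),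
        (fun ξ => gr (D (ξ, c))) '' (Y ∩ {ξ | ⌊(ξ - a + L) / δ⌋₊ = j})) := by
        refine measure_mono ?_
        rintro _ ⟨ξ, h, rfl⟩
        refine mem_biUnion (x := ⌊(ξ - a + L) / δ⌋₊) ?_ ⟨ξ, ⟨h, rfl⟩, rfl⟩
        simp only [Finset.coe_range, mem_Iio, Nat.lt_succ_iff]
        refine Nat.floor_le_of_le ?_
        rw [div_le_iff₀ δp, hδ, mul_div_cancel₀ _ N0.ne']
        linarith [(abs_le.1 h.1).2]
    _ ≤ ∑ j ∈ Finset.range (N + 1), ENNReal.ofReal (8 * w * (3 * w * δ / L)) :=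
        (measure_biUnion_finset_le _ _).trans (Finset.sum_le_sum fun j _ => piece j)
    _ ≤ 0 + ε := by
        rw [Finset.sum_const, Finset.card_range, nsmul_eq_mul, ← ENNReal.ofReal_natCast,
          ← ENNReal.ofReal_mul (by positivity), zero_add, ← ENNReal.ofReal_coe_nnreal]
        refine ENNReal.ofReal_le_ofReal (le_trans ?_ hw)
        rw [hδ, show ((N + 1 : ℕ) : ℝ) * (8 * w * (3 * w * (2 * L / N) / L)) =
          48 * w ^ 2 * ((N + 1) / N) by push_cast; field_simp; ring]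
        have : ((N : ℝ) + 1) / N ≤ 2 := by rw [div_le_iff₀ N0]; linarith
        nlinarith [sq_nonneg w]

lemma half (u : P → ℝ) (D : P → P →L[ℝ] ℝ) (V : Set P) (hV : IsOpen V)
    (hd : ∀ x ∈ V, HasFDerivAt u (D x) x) (hc : ContinuousOn D V) :
    volume ((fun x => gr (D x)) '' {x ∈ V | ∃ m : ℝ, |m| ≤ 1 ∧ ∃ ε > 0,
      ∀ s, |s| ≤ ε → D (x.1 + m * s, x.2 + s) = D x}) = 0 := by
  refine measure_mono_null (t := ⋃ (a : ℚ) (c : ℚ) (L : ℚ) (_ : (0 : ℝ) < L ∧
    closedBall ((a, c) : P) (2 * L) ⊆ V), (fun ξ => gr (D (ξ, c))) '' {ξ | |ξ - a| ≤ L ∧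
      ∃ m, |m| ≤ 1 ∧ ∀ s : ℝ, |s| ≤ L → D (ξ + m * s, c + s) = D (ξ, c)}) ?_ ?_
  · rintro _ ⟨⟨x, y⟩, ⟨hx, m, hm, ε, ε0, h⟩, rfl⟩
    obtain ⟨r, r0, hr⟩ := Metric.isOpen_iff.1 hV _ hx
    obtain ⟨L, L0, L1⟩ := exists_rat_btwn (lt_min (by positivity : 0 < r / 3) (half_pos ε0))
    obtain ⟨a, a0, a1⟩ := exists_rat_btwn (by linarith : x < x + L / 2)
    obtain ⟨c, c0, c1⟩ := exists_rat_btwn (by linarith : y < y + L / 2)
    rw [lt_min_iff] at L1
    have m1 : |m * (c - y)| ≤ L / 2 := by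
      rw [abs_mul, abs_of_pos (sub_pos.2 c0)]; nlinarith [abs_nonneg m]
    have e : D (x + m * (c - y), c) = D (x, y) := by
      simpa using h (c - y) (by rw [abs_le]; constructor <;> linarith)
    simp only [mem_iUnion]
    refine ⟨a, c, L, ⟨L0, subset_trans (closedBall_subset_ball' ?_) hr⟩, x + m * (c - y),
      ⟨?_, m, hm, fun s hs => ?_⟩, by simp only [e]⟩
    · have : dist ((a, c) : P) (x, y) ≤ L / 2 := by
        simp only [Prod.dist_eq, Real.dist_eq, max_le_iff, abs_le]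
        exact ⟨⟨by linarith, by linarith⟩, by linarith, by linarith⟩
      linarith
    · rw [abs_le] at m1 ⊢; constructor <;> linarith
    · rw [e, ← h (c - y + s) (by rw [abs_le] at hs ⊢; constructor <;> linarith)]
      congr 2 <;> ring
  · simp only [measure_iUnion_null_iff]
    exact fun a c L h => core u D a c L h.1 (fun x hx => hd x (h.2 hx)) (hc.mono h.2)

/-- The gradient image of a `C¹` function whose gradient is constant along a segment emanating
from each point is null. -/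
lemma null (u : P → ℝ) (D : P → P →L[ℝ] ℝ) (V : Set P) (hV : IsOpen V)
    (hd : ∀ x ∈ V, HasFDerivAt u (D x) x) (hc : ContinuousOn D V)
    (h : ∀ x ∈ V, ∃ d : P, d ≠ 0 ∧ ∃ ε > 0, ∀ s ∈ Icc (0 : ℝ) ε, x + s • d ∈ V ∧ D (x + s • d) = D x) :
    volume ((fun x => gr (D x)) '' V) = 0 := by
  let σ := ContinuousLinearEquiv.prodComm ℝ ℝ ℝ
  have h1 := half u D V hV hd hc
  have h2 := Measure.measurePreserving_swap.quasiMeasurePreserving.preimage_null (half (u ∘ σ)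
    (fun x => (D (σ x)).comp (σ : P →L[ℝ] P)) (σ ⁻¹' V) (hV.preimage σ.continuous)
    (fun x hx => (hd _ hx).comp x σ.hasFDerivAt)
    ((hc.comp σ.continuous.continuousOn fun _ h => h).clm_comp continuousOn_const))
  refine measure_mono_null ?_ (measure_union_null h1 h2)
  rintro _ ⟨x, hx, rfl⟩
  obtain ⟨⟨d, e⟩, d0, ε, ε0, k⟩ := h x hx
  have k1 := k (ε / 2) ⟨by linarith, by linarith⟩
  have k2 : ∀ s t : ℝ, t ≠ 0 → |s| ≤ ε / 2 * |t| → D (x + (ε / 2 + s / t) • (d, e)) = D x := by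
    intro s t t0 hs
    have : |s / t| ≤ ε / 2 := by rwa [abs_div, div_le_iff₀ (abs_pos.2 t0)]
    rw [abs_le] at this
    exact (k _ ⟨by linarith, by linarith⟩).2
  rcases le_total |d| |e| with l | l
  · have e0 : e ≠ 0 := fun h => d0 (by simp [h] at l; simp [h, l])
    refine .inl ⟨_, ⟨k1.1, d / e, by rwa [abs_div, div_le_one (abs_pos.2 e0)], ε / 2 * |e|,
      by positivity, fun s hs => ?_⟩, by simp only [k1.2]⟩
    rw [k1.2, ← k2 s e e0 hs]
    congr 1; ext <;> simp <;> field_simp <;> ring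
  · have e0 : d ≠ 0 := fun h => d0 (by simp [h] at l; simp [h, l])
    refine .inr ⟨(x + (ε / 2) • (d, e)).swap, ⟨k1.1, e / d, by rwa [abs_div, div_le_one (abs_pos.2 e0)],
      ε / 2 * |d|, by positivity, fun s hs => ?_⟩, ?_⟩
    · congr 1
      rw [show σ (x + (ε / 2) • (d, e)).swap = x + (ε / 2) • (d, e) from rfl, k1.2, ← k2 s d e0 hs]
      congr 1; ext <;> simp [σ] <;> field_simp <;> ring
    · beta_reduce
      rw [show σ (x + (ε / 2) • (d, e)).swap = x + (ε / 2) • (d, e) from rfl, k1.2]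
      rfl

end Pool.Agent.H.MP_81590e_gt
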