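import Pool.Agent.H.MP_81590e_gt.A

open Set MeasureTheory Metric Filter Topology Module Function
open scoped Manifold RealInnerProductSpace

namespace Pool.Agent.H.MP_81590e_gt

abbrev E (n : ℕ) := EuclideanSpace ℝ (Fin n)

lemma frame (A : E 2 →L[ℝ] E 3) (hA : Injective A) :
    ∃ (Φ : (P × ℝ) ≃L[ℝ] E 3) (e : E 2 ≃L[ℝ] P), ∀ v, (Φ.symm (A v)).1 = e v := by
  let e : E 2 ≃L[ℝ] P := ContinuousLinearEquiv.ofFinrankEq (by simp)
  obtain ⟨ν, hν⟩ : ∃ ν, ν ∉ LinearMap.range (A : E 2 →ₗ[ℝ] E 3) := by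
    by_contra h
    push Not at h
    have := LinearMap.finrank_range_le (A : E 2 →ₗ[ℝ] E 3)
    rw [Submodule.eq_top_iff'.2 h] at this
    simp at this
  let L : (P × ℝ) →ₗ[ℝ] E 3 := ((A : E 2 →ₗ[ℝ] E 3) ∘ₗ (e.symm : P →ₗ[ℝ] E 2)).coprod
    (LinearMap.toSpanSingleton ℝ _ ν)
  have hL : ∀ ξ t, L (ξ, t) = A (e.symm ξ) + t • ν := fun _ _ => rfl
  have iL : Injective L := (injective_iff_map_eq_zero _).2 fun ⟨ξ, t⟩ h => by
    rw [hL] at h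
    obtain rfl : t = 0 := by
      by_contra t0
      refine hν ⟨(-t⁻¹) • e.symm ξ, ?_⟩
      rw [map_smul, ContinuousLinearMap.coe_coe, eq_neg_of_add_eq_zero_left h, smul_neg, smul_smul]
      simp [t0]
    rw [zero_smul, add_zero, ← map_zero A] at h
    simpa using hA h
  refine ⟨(L.linearEquivOfInjective iL (by simp)).toContinuousLinearEquiv, e, fun v => ?_⟩
  rw [show A v = (L.linearEquivOfInjective iL (by simp)).toContinuousLinearEquiv (e v, 0) by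
    simp [hL], ContinuousLinearEquiv.symm_apply_apply]

variable {M : Type*} [TopologicalSpace M] [ChartedSpace (E 2) M]

lemma graph (f : M → E 3) (hf : ContMDiff (𝓡 2) (𝓡 3) 1 f)
    (imm : ∀ x, Injective (mfderiv (𝓡 2) (𝓡 3) f x)) (x : M) :
    ∃ (Φ : (P × ℝ) ≃L[ℝ] E 3) (u : P → ℝ) (V : Set P) (G : Set M), IsOpen V ∧ ContDiffOn ℝ 1 u V ∧
      IsOpen G ∧ x ∈ G ∧ (fun y => (Φ.symm (f y)).1) '' G = V ∧ ∀ y ∈ G,
        range (mfderiv (𝓡 2) (𝓡 3) f y) =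
          range (fun ξ => Φ (ξ, fderiv ℝ u (Φ.symm (f y)).1 ξ)) ∧
        u (Φ.symm (f y)).1 = (Φ.symm (f y)).2 := by
  have md : ∀ y, HasMFDerivAt (𝓡 2) (𝓡 3) f y (mfderiv (𝓡 2) (𝓡 3) f y) := fun y =>
    ((hf y).mdifferentiableAt one_ne_zero).hasMFDerivAt
  obtain ⟨Φ, e, he⟩ := frame (mfderiv (𝓡 2) (𝓡 3) f x) (imm x)
  set φ := extChartAt (𝓡 2) x with hφ
  have cF : ContDiffAt ℝ 1 (f ∘ φ.symm) (φ x) := by
    have := contMDiffAt_iff_source.1 (hf x)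
    rwa [modelWithCornersSelf_coe, range_id, contMDiffWithinAt_univ, contMDiffAt_iff_contDiffAt] at this
  have dF : HasFDerivAt (f ∘ φ.symm) (show E 2 →L[ℝ] E 3 from mfderiv (𝓡 2) (𝓡 3) f x) (φ x) := by
    have := (md x).2
    rwa [modelWithCornersSelf_coe, range_id, hasFDerivWithinAt_univ, writtenInExtChartAt,
      extChartAt_model_space_eq_id] at this
  let π : E 3 →L[ℝ] P := (ContinuousLinearMap.fst ℝ P ℝ).comp (Φ.symm : E 3 →L[ℝ] P × ℝ)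
  have ck : ContDiffAt ℝ 1 (π ∘ f ∘ φ.symm) (φ x) := π.contDiff.contDiffAt.comp _ cF
  have dk : HasFDerivAt (π ∘ f ∘ φ.symm) (e : E 2 →L[ℝ] P) (φ x) :=
    (π.hasFDerivAt.comp _ dF).congr_fderiv (ContinuousLinearMap.ext he)
  obtain ⟨h, h1, h2, h3⟩ : ∃ h : OpenPartialHomeomorph (E 2) P, ⇑h = π ∘ f ∘ φ.symm ∧
      φ x ∈ h.source ∧ ContDiffAt ℝ 1 h.symm (h (φ x)) :=
    ⟨ck.toOpenPartialHomeomorph _ dk one_ne_zero, rfl, ck.mem_toOpenPartialHomeomorph_source _ _,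
      ck.to_localInverse dk one_ne_zero⟩
  obtain ⟨u, hu⟩ : ∃ u : P → ℝ, u = fun ξ => (Φ.symm ((f ∘ φ.symm) (h.symm ξ))).2 := ⟨_, rfl⟩
  have cu : ContDiffAt ℝ 1 u (h (φ x)) := by
    rw [hu]
    exact (Φ.symm.contDiff.contDiffAt.comp _ (ContDiffAt.comp _ (by rwa [h.left_inv h2]) h3)).snd
  obtain ⟨W, hW, cW⟩ := cu.contDiffOn le_rfl (by simp)
  obtain ⟨V, v1, v2, v3⟩ := _root_.mem_nhds_iff.1 (inter_mem hW (inter_mem (h.open_target.mem_nhds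
    (h.map_source h2)) (h3.continuousAt.preimage_mem_nhds (t := φ.target) (by
      rw [h.left_inv h2]; exact extChartAt_target_mem_nhds x))))
  have gh : ∀ y ∈ φ.source, h (φ y) = π (f y) := fun y hy => by simp [h1, φ.left_inv hy]
  have cπ : Continuous fun y => π (f y) := π.continuous.comp hf.continuous
  have oG : IsOpen ((φ.source ∩ φ ⁻¹' h.source) ∩ (fun y => π (f y)) ⁻¹' V) :=
    (isOpen_extChartAt_preimage' x h.open_source).inter (v2.preimage cπ)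
  have gu : ∀ y ∈ (φ.source ∩ φ ⁻¹' h.source) ∩ (fun y => π (f y)) ⁻¹' V,
      u (π (f y)) = (Φ.symm (f y)).2 := fun y hy => by
    rw [← gh y hy.1.1, hu]
    simp only [h.left_inv hy.1.2, comp, φ.left_inv hy.1.1]
  refine ⟨Φ, u, V, _, v2, cW.mono fun z hz => (v1 hz).1, oG, ⟨⟨mem_extChartAt_source x, h2⟩, by
    rwa [gh x (mem_extChartAt_source x)] at v3⟩, Subset.antisymm ?_ fun ξ hξ => ?_,
    fun y hy => ⟨?_, gu y hy⟩⟩
  · rintro _ ⟨y, hy, rfl⟩; exact hy.2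
  · obtain ⟨-, a, b⟩ := v1 hξ
    have c := φ.map_target b
    have d : π (f (φ.symm (h.symm ξ))) = ξ := by rw [← gh _ c, φ.right_inv b, h.right_inv a]
    exact ⟨_, ⟨⟨c, by rw [mem_preimage, φ.right_inv b]; exact h.map_target a⟩,
      by rw [mem_preimage, d]; exact hξ⟩, d⟩
  · have du : HasFDerivAt u (fderiv ℝ u (π (f y))) (π (f y)) :=
      (((cW.mono fun z hz => (v1 hz).1).contDiffAt (v2.mem_nhds hy.2)).differentiableAt
        one_ne_zero).hasFDerivAt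
    have d1 := Φ.hasFDerivAt.comp _ ((hasFDerivAt_id (π (f y))).prodMk du)
    have d2 := (d1.comp _ π.hasFDerivAt).hasMFDerivAt.comp y (md y)
    have d3 := (d2.congr_of_eventuallyEq (f₁ := f) (by
      filter_upwards [oG.mem_nhds hy] with z hz
      simp only [comp, id, gu z hz]
      exact (Φ.apply_symm_apply _).symm)).mfderiv
    obtain ⟨A, hA⟩ : ∃ A : E 2 →L[ℝ] E 3, A = mfderiv (𝓡 2) (𝓡 3) f y := ⟨_, rfl⟩
    have iA : Injective A := hA ▸ imm y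
    have d4 : ∀ v, A v = Φ (π (A v), fderiv ℝ u (π (f y)) (π (A v))) := fun v => by
      rw [hA]; exact congrArg (· v) d3
    have sj : Surjective (π.comp A : E 2 →ₗ[ℝ] P) :=
      (LinearMap.injective_iff_surjective_of_finrank_eq_finrank (by simp)).1 fun a b k =>
        iA (by rw [d4 a, d4 b, show π (A a) = π (A b) from k])
    change range (show E 2 →L[ℝ] E 3 from mfderiv (𝓡 2) (𝓡 3) f y) = _
    rw [← hA]
    ext w
    constructor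
    · rintro ⟨v, rfl⟩; exact ⟨_, (d4 v).symm⟩
    · rintro ⟨ξ, rfl⟩
      obtain ⟨v, rfl⟩ := sj ξ
      exact ⟨v, d4 v⟩

lemma nv (Φ : (P × ℝ) ≃L[ℝ] E 3) : ∃ N : P → E 3, ContDiff ℝ 1 N ∧ (∀ q, N q ≠ 0) ∧
    ∀ q z, ⟪N q, Φ z⟫ = z.2 - q.1 * z.1.1 - q.2 * z.1.2 := by
  let r := fun L : P × ℝ →L[ℝ] ℝ =>
    (InnerProductSpace.toDual ℝ (E 3)).symm (L.comp (Φ.symm : E 3 →L[ℝ] P × ℝ))
  have hr : ∀ L z, ⟪r L, Φ z⟫ = L z := fun L z => by simp [r]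
  obtain ⟨a, b, c, h⟩ : ∃ a b c : E 3, ∀ z, ⟪a, Φ z⟫ = z.1.1 ∧ ⟪b, Φ z⟫ = z.1.2 ∧ ⟪c, Φ z⟫ = z.2 :=
    ⟨r ((ContinuousLinearMap.fst ℝ ℝ ℝ).comp (ContinuousLinearMap.fst ℝ P ℝ)),
      r ((ContinuousLinearMap.snd ℝ ℝ ℝ).comp (ContinuousLinearMap.fst ℝ P ℝ)),
      r (ContinuousLinearMap.snd ℝ P ℝ), fun z => ⟨hr _ z, hr _ z, hr _ z⟩⟩
  obtain ⟨N, hN⟩ : ∃ N : P → E 3, N = fun q => c - q.1 • a - q.2 • b := ⟨_, rfl⟩
  have iN : ∀ q z, ⟪N q, Φ z⟫ = z.2 - q.1 * z.1.1 - q.2 * z.1.2 := fun q z => by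
    simp [hN, inner_sub_left, inner_smul_left, h z]
  exact ⟨N, by rw [hN]; fun_prop, fun q k => by simpa [k] using iN q (0, 1), iN⟩

lemma sph (Φ : (P × ℝ) ≃L[ℝ] E 3) (Q : Set P) (hQ : volume Q = 0) :
    μHE[2] {ν : E 3 | ‖ν‖ = 1 ∧ ∃ D : P →L[ℝ] ℝ, gr D ∈ Q ∧ ∀ ξ, ⟪ν, Φ (ξ, D ξ)⟫ = 0} = 0 := by
  obtain ⟨N, cN, N0, iN⟩ := nv Φ
  have key : ∀ s : ℝ, μH[2] ((fun q => (s * ‖N q‖⁻¹) • N q) '' Q) = 0 := fun s => by
    have c1 : ContDiff ℝ 1 fun q => (s * ‖N q‖⁻¹) • N q :=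
      (contDiff_const.mul ((cN.norm ℝ N0).inv fun q => norm_ne_zero_iff.2 (N0 q))).smul cN
    rw [← inter_univ Q, ← iUnion_closedBall_nat (0 : P), inter_iUnion, image_iUnion,
      measure_iUnion_null_iff]
    intro k
    obtain ⟨K, hK⟩ := c1.contDiffOn.exists_lipschitzOnWith one_ne_zero (convex_closedBall 0 (k : ℝ))
      (isCompact_closedBall _ _)
    have := (hK.mono (inter_subset_right (s := Q))).hausdorffMeasure_image_le (d := 2) zero_le_two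
    rwa [hausdorffMeasure_prod_real, measure_mono_null inter_subset_left hQ, mul_zero,
      nonpos_iff_eq_zero] at this
  have z : ∀ S : Set (E 3), μH[2] S = 0 → μHE[2] S = 0 := fun S hS => by
    rw [Measure.euclideanHausdorffMeasure_def, Measure.smul_apply,
      show μH[((2 : ℕ) : ℝ)] S = 0 by simpa using hS, smul_zero]
  refine z _ (measure_mono_null ?_ (measure_union_null (key 1) (key (-1))))
  rintro ν ⟨h1, D, hD, h2⟩
  have e : ν = ⟪ν, Φ (0, 1)⟫ • N (gr D) := by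
    refine ext_inner_right ℝ fun w => ?_
    obtain ⟨⟨⟨x, y⟩, t⟩, rfl⟩ := Φ.surjective w
    rw [inner_smul_left, iN, show ((x, y), t) = ((x, y), D (x, y)) + (t - D (x, y)) • ((0, 1) : P × ℝ) by
      simp, map_add, map_smul, inner_add_right, inner_smul_right, h2, app]
    simp [gr]; ring
  generalize ⟪ν, Φ (0, 1)⟫ = τ at e
  have n0 := norm_pos_iff.2 (N0 (gr D))
  rw [e, norm_smul, Real.norm_eq_abs, ← eq_mul_inv_iff_mul_eq₀ n0.ne', one_mul,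
    abs_eq (inv_pos.2 n0).le] at h1
  rcases h1 with k | k
  · exact .inl ⟨_, hD, by simp [e, k]⟩
  · exact .inr ⟨_, hD, by simp [e, k]⟩

theorem main (f : M → E 3) (hf : ContMDiff (𝓡 2) (𝓡 3) 1 f)
    (imm : ∀ x, Injective (mfderiv (𝓡 2) (𝓡 3) f x))
    (h : ∀ x, ∃ v : E 3, v ≠ 0 ∧ ∃ γ : ℝ → M, ContinuousOn γ (Icc 0 1) ∧ γ 0 = x ∧ ∀ s ∈ Icc (0 : ℝ) 1,
      f (γ s) = f x + s • v ∧
        range (mfderiv (𝓡 2) (𝓡 3) f (γ s)) = range (mfderiv (𝓡 2) (𝓡 3) f x)) (x : M) :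
    ∃ G, IsOpen G ∧ x ∈ G ∧ (∃ n : M → E 3, ContinuousOn n G ∧ ∀ y ∈ G, ‖n y‖ = 1 ∧
      ∀ w ∈ range (mfderiv (𝓡 2) (𝓡 3) f y), ⟪n y, w⟫ = 0) ∧ μHE[2] {ν : E 3 | ‖ν‖ = 1 ∧ ∃ y ∈ G,
      ∀ w ∈ range (mfderiv (𝓡 2) (𝓡 3) f y), ⟪ν, w⟫ = 0} = 0 := by
  obtain ⟨Φ, u, V, G, oV, cu, oG, hx, e, k⟩ := graph f hf imm x
  have mV : ∀ y ∈ G, (Φ.symm (f y)).1 ∈ V := fun y hy => e ▸ mem_image_of_mem _ hy
  refine ⟨G, oG, hx, ?_, measure_mono_null ?_ (sph Φ _ (null u (fderiv ℝ u) V oV (fun z hz =>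
    ((cu.contDiffAt (oV.mem_nhds hz)).differentiableAt one_ne_zero).hasFDerivAt)
    (cu.continuousOn_fderiv_of_isOpen oV le_rfl) ?_))⟩
  · obtain ⟨N, cN, N0, iN⟩ := nv Φ
    have c1 : ContinuousOn (fun y => fderiv ℝ u (Φ.symm (f y)).1) G :=
      (cu.continuousOn_fderiv_of_isOpen oV le_rfl).comp
        (Φ.symm.continuous.comp hf.continuous).fst.continuousOn mV
    have c2 := cN.continuous.comp_continuousOn ((c1.clm_apply (continuousOn_const (c := ((1, 0) : P)))).prodMk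
      (c1.clm_apply (continuousOn_const (c := ((0, 1) : P)))))
    refine ⟨_, (c2.norm.inv₀ fun y _ => norm_ne_zero_iff.2 (N0 _)).smul c2, fun y hy =>
      ⟨norm_smul_inv_norm (𝕜 := ℝ) (N0 _), ?_⟩⟩
    rw [(k y hy).1]
    rintro _ ⟨⟨a, b⟩, rfl⟩
    simp only [Pi.smul_apply', comp, inner_smul_left, iN]
    rw [app]; simp [mul_comm]
  · rintro ν ⟨h1, y, hy, h2⟩
    exact ⟨h1, _, ⟨_, mV y hy, rfl⟩, fun ξ => h2 _ ((k y hy).1 ▸ ⟨ξ, rfl⟩)⟩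
  rw [← e]
  rintro _ ⟨y, hy, rfl⟩
  obtain ⟨v, v0, γ, cγ, rfl, hγ⟩ := h y
  obtain ⟨ε, ε0, hε⟩ := Metric.mem_nhdsWithin_iff.1
    ((cγ 0 ⟨le_rfl, zero_le_one⟩).preimage_mem_nhdsWithin (oG.mem_nhds hy))
  have a : ∀ s ∈ Icc 0 (min (ε / 2) 1), γ s ∈ G ∧ s ∈ Icc (0 : ℝ) 1 := fun s hs => by
    have := hs.2.trans (min_le_left _ _)
    have b : s ∈ Icc (0 : ℝ) 1 := ⟨hs.1, hs.2.trans (min_le_right _ _)⟩
    exact ⟨hε ⟨by simp [abs_of_nonneg hs.1]; linarith, b⟩, b⟩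
  have b : ∀ s ∈ Icc (0 : ℝ) 1, Φ.symm (f (γ s)) = Φ.symm (f (γ 0)) + s • Φ.symm v := fun s hs => by
    rw [(hγ s hs).1, map_add, map_smul]
  have m0 : 0 < min (ε / 2) 1 := lt_min (half_pos ε0) one_pos
  refine ⟨(Φ.symm v).1, fun d0 => v0 ?_, _, m0, fun s hs => ?_⟩
  · obtain ⟨a1, a2⟩ := a _ ⟨m0.le, le_rfl⟩
    have c := (k _ a1).2
    rw [b _ a2, Prod.fst_add, Prod.smul_fst, d0, smul_zero, add_zero, (k _ hy).2] at c
    have : (Φ.symm v).2 = 0 := by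
      rw [Prod.snd_add, Prod.smul_snd, left_eq_add, smul_eq_zero] at c
      exact c.resolve_left m0.ne'
    simpa using (Prod.ext d0 this : Φ.symm v = 0)
  · obtain ⟨a1, a2⟩ := a s hs
    have c : (Φ.symm (f (γ 0))).1 + s • (Φ.symm v).1 = (Φ.symm (f (γ s))).1 := by rw [b s a2]; rfl
    beta_reduce
    rw [c]
    refine ⟨⟨_, a1, rfl⟩, ContinuousLinearMap.ext fun ξ => ?_⟩
    have d := (k _ a1).1.symm.trans ((hγ s a2).2.trans (k _ hy).1)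
    obtain ⟨ζ, hζ⟩ : Φ (ξ, fderiv ℝ u (Φ.symm (f (γ s))).1 ξ) ∈
      range fun ξ => Φ (ξ, fderiv ℝ u (Φ.symm (f (γ 0))).1 ξ) := d ▸ ⟨ξ, rfl⟩
    obtain ⟨rfl, l⟩ := Prod.ext_iff.1 (Φ.injective hζ)
    exact l.symm

end Pool.Agent.H.MP_81590e_gt
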